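import Pool.Agent.K.MP_8a5308_nt.C0

open Pool.Agent.P.MP_8a5308_nt

theorem Pool.Agent.Results.MP_8a5308_nt.Q2.result (n : ℕ) (_hn : 0 < n) :
    ∃ A B : Polynomial ℤ, Polynomial.aeval RatFunc.X A = F n ∧
      Polynomial.aeval RatFunc.X B = qB (3 * n) n ∧ B ∣ A :=
  Pool.Agent.P.MP_8a5308_nt.main n 2 (Or.inr rfl)
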